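import Pool.Agent.Q164.Rep
import Pool.Agent.Q164.Hyp2
import Mathlib.LinearAlgebra.Dimension.Constructions

/-!
A non-monotone infinite-order hyperbolicity preserver which is diagonal with respect to the
Hermite basis.
-/

namespace Pool.Agent.Results.MP_f79668_an.NonMonotone

open Polynomial Finset Pool.Agent.Q164

/-- All (complex) zeros of the real polynomial `p` are real; the zero polynomial is included. -/
def IsHyperbolic (p : ℝ[X]) : Prop := p = 0 ∨ ∀ z : ℂ, aeval z p = 0 → z.im = 0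

/-- `Q` is the coefficient sequence of `T = ∑ Q_k D^k`. -/
def Represents (Q : ℕ → ℝ[X]) (T : ℝ[X] →ₗ[ℝ] ℝ[X]) : Prop :=
  ∀ p : ℝ[X], T p = ∑ k ∈ range (p.natDegree + 1), Q k * derivative^[k] p

/-- `B` is an admissible basis: `deg B_k = k` and every `B_k` solves
`a_0(k) y + ∑_{j=1}^M a_j y^(j) = 0` with fixed `M ≥ 1` and fixed `a_1, ..., a_M`, `a_M ≠ 0`. -/
def Admissible (B : ℕ → ℝ[X]) : Prop :=
  (∀ k, (B k).degree = k) ∧
    ∃ (M : ℕ) (a : ℕ → ℝ[X]) (a₀ : ℕ → ℝ), 1 ≤ M ∧ a M ≠ 0 ∧
      ∀ k, C (a₀ k) * B k + ∑ j ∈ Icc 1 M, a j * derivative^[j] (B k) = 0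

/-- `Q_k ≠ 0` for infinitely many `k`. -/
def InfiniteOrder (Q : ℕ → ℝ[X]) : Prop := ∀ n, ∃ k, n ≤ k ∧ Q k ≠ 0

/-- `deg Q_k ≤ deg Q_{k+1}` for every `k` with `Q_k ≠ 0` (the degree of `0` is `⊥`). -/
def Monotone' (Q : ℕ → ℝ[X]) : Prop := ∀ k, Q k ≠ 0 → (Q k).degree ≤ (Q (k + 1)).degree

/-- The Hermite polynomials `He_0 = 1`, `He_{n+1} = x He_n - He_n'`. -/
noncomputable def He : ℕ → ℝ[X]
  | 0 => 1
  | n + 1 => X * He n - derivative (He n)

theorem He_facts (n : ℕ) :
    derivative (derivative (He n)) = X * derivative (He n) - C (n : ℝ) * He n ∧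
      derivative (He (n + 1)) = C ((n : ℝ) + 1) * He n := by
  induction n with
  | zero => simp [He]
  | succ n ih =>
    obtain ⟨h1, h2⟩ := ih
    have h3 : derivative (derivative (He (n + 1))) =
        X * derivative (He (n + 1)) - C ((n + 1 : ℕ) : ℝ) * He (n + 1) := by
      rw [h2]
      have : He (n + 1) = X * He n - derivative (He n) := rfl
      rw [this]
      simp only [derivative_mul, derivative_C, zero_mul, zero_add]
      push_cast
      ring
    refine ⟨h3, ?_⟩
    have : He (n + 1 + 1) = X * He (n + 1) - derivative (He (n + 1)) := rfl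
    rw [this, derivative_sub, h3]
    simp only [derivative_mul, derivative_X]
    simp only [map_add, map_one, map_natCast]
    push_cast
    ring

theorem He_monic (n : ℕ) : (He n).Monic ∧ (He n).natDegree = n := by
  induction n with
  | zero => exact ⟨monic_one, natDegree_one⟩
  | succ n ih =>
    have h1 : (X * He n).Monic := monic_X.mul ih.1
    have h2 : (X * He n).natDegree = n + 1 := by
      rw [monic_X.natDegree_mul ih.1, natDegree_X, ih.2, add_comm]
    have h3 : (derivative (He n)).degree < (X * He n).degree := by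
      rw [degree_eq_natDegree h1.ne_zero, h2]
      calc (derivative (He n)).degree ≤ (He n).degree := degree_derivative_le
        _ = (n : WithBot ℕ) := by rw [degree_eq_natDegree ih.1.ne_zero, ih.2]
        _ < ((n + 1 : ℕ) : WithBot ℕ) := by exact_mod_cast Nat.lt_succ_self n
    have e : He (n + 1) = X * He n - derivative (He n) := rfl
    refine ⟨?_, ?_⟩
    · rw [e]
      exact h1.sub_of_left h3
    · rw [e, natDegree_sub_eq_left_of_natDegree_lt, h2]
      rw [h2]
      have := natDegree_derivative_le (He n)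
      omega

theorem He_degree (n : ℕ) : (He n).degree = n := by
  rw [degree_eq_natDegree (He_monic n).1.ne_zero, (He_monic n).2]

theorem He_admissible : Admissible He := by
  refine ⟨He_degree, 2, fun j => if j = 1 then -X else 1, fun k => k, by norm_num, by simp, ?_⟩
  intro k
  have : Icc 1 2 = ({1, 2} : Finset ℕ) := by decide
  rw [this, sum_pair (by norm_num)]
  simp only [Function.iterate_succ, Function.iterate_zero, Function.comp_apply, id_eq]
  simp only [if_true, if_neg (show (2 : ℕ) ≠ 1 by norm_num)]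
  rw [(He_facts k).1]
  ring

/-- Gaussian moments. -/
noncomputable def mom : ℕ → ℝ
  | 0 => 1
  | 1 => 0
  | n + 2 => (n + 1) * mom n

theorem mom_even_pos (n : ℕ) : 0 < mom (2 * n) := by
  induction n with
  | zero => simp [mom]
  | succ n ih =>
    have : mom (2 * (n + 1)) = ((2 * n : ℕ) + 1) * mom (2 * n) := rfl
    rw [this]
    positivity

/-- Gaussian expectation. -/
noncomputable def ex : ℝ[X] →ₗ[ℝ] ℝ := Polynomial.lsum fun n => (mom n) • LinearMap.id

theorem ex_monomial (n : ℕ) (a : ℝ) : ex (monomial n a) = mom n * a := by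
  simp [ex, Polynomial.sum_monomial_index]

theorem ex_X_pow (n : ℕ) : ex (X ^ n) = mom n := by
  rw [X_pow_eq_monomial, ex_monomial, mul_one]

theorem ex_X_mul (p : ℝ[X]) : ex (X * p) = ex (derivative p) := by
  have : ex ∘ₗ LinearMap.mulLeft ℝ (X : ℝ[X]) = ex ∘ₗ derivative := by
    apply Polynomial.lhom_ext'
    intro n
    apply LinearMap.ext_ring
    rw [LinearMap.comp_apply, LinearMap.comp_apply, LinearMap.comp_apply, LinearMap.comp_apply,
      LinearMap.mulLeft_apply, X_mul_monomial, derivative_monomial, ex_monomial, ex_monomial]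
    cases n with
    | zero => simp [mom]
    | succ n =>
      simp [mom]
      ring
  exact LinearMap.congr_fun this p

theorem ex_He (n : ℕ) : ex (He (n + 1)) = 0 := by
  have : He (n + 1) = X * He n - derivative (He n) := rfl
  rw [this, map_sub, ex_X_mul, sub_self]

/-- The operator. -/
noncomputable def T₀ : ℝ[X] →ₗ[ℝ] ℝ[X] :=
  (ex ∘ₗ derivative).smulRight X + (ex ∘ₗ derivative ∘ₗ derivative).smulRight (X ^ 2 - 1)

theorem T₀_apply (p : ℝ[X]) :
    T₀ p = C (ex (derivative p)) * X + C (ex (derivative (derivative p))) * (X ^ 2 - 1) := by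
  simp [T₀, smul_eq_C_mul]

/-- The eigenvalues. -/
noncomputable def γ₀ (n : ℕ) : ℝ := if n = 1 then 1 else if n = 2 then 2 else 0

theorem He_one : He 1 = X := by simp [He]
theorem He_two : He 2 = X ^ 2 - 1 := by simp [He]; ring

theorem T₀_He (n : ℕ) : T₀ (He n) = γ₀ n • He n := by
  match n with
  | 0 => simp [T₀_apply, He, γ₀]
  | 1 =>
    have := ex_X_pow 0
    rw [He_one, T₀_apply]
    have h0 : ex 1 = 1 := by simpa [mom] using this
    simp [γ₀, h0]
  | 2 =>
    have := ex_X_pow 0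
    have h1 := ex_X_pow 1
    rw [pow_zero] at this
    rw [pow_one] at h1
    have h0 : ex 1 = 1 := by simpa [mom] using this
    have hX : ex X = 0 := by simpa [mom] using h1
    have d1 : derivative (X ^ 2 - 1 : ℝ[X]) = (2 : ℝ) • X := by
      rw [smul_eq_C_mul, map_ofNat C 2]
      simp [one_add_one_eq_two]
      exact map_ofNat C 2
    have d2 : derivative ((2 : ℝ) • X : ℝ[X]) = (2 : ℝ) • 1 := by
      rw [derivative_smul, derivative_X]
    rw [He_two, T₀_apply, d1, d2, ex.map_smul, ex.map_smul, h0, hX]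
    simp [γ₀, smul_eq_C_mul]
  | n + 3 =>
    have d1 : derivative (He (n + 3)) = (((n + 2 : ℕ) : ℝ) + 1) • He (n + 2) := by
      rw [(He_facts (n + 2)).2, smul_eq_C_mul]
    have d2 : derivative (He (n + 2)) = (((n + 1 : ℕ) : ℝ) + 1) • He (n + 1) := by
      rw [(He_facts (n + 1)).2, smul_eq_C_mul]
    rw [T₀_apply, d1, derivative_smul, d2, ex.map_smul, ex.map_smul, ex.map_smul, ex_He,
      ex_He]
    simp [γ₀]

theorem hyp (a b : ℝ) : IsHyperbolic (C a * X + C b * (X ^ 2 - 1)) := by
  by_cases hb : b = 0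
  · by_cases ha : a = 0
    · left
      simp [ha, hb]
    · right
      intro z hz
      simp [hb, ha] at hz
      simp [hz]
  right
  intro z hz
  have h1 : (a : ℂ) * z + b * (z ^ 2 - 1) = 0 := by
    simpa using hz
  have h2 : (2 * (b : ℂ) * z + a) ^ 2 = ((a ^ 2 + 4 * b ^ 2 : ℝ) : ℂ) := by
    push_cast
    linear_combination 4 * (b : ℂ) * h1
  have hre := congrArg Complex.re h2
  have him := congrArg Complex.im h2
  rw [sq, Complex.mul_re, Complex.ofReal_re] at hre
  rw [sq, Complex.mul_im, Complex.ofReal_im] at him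
  have e1 : (2 * (b : ℂ) * z + a).im = 2 * b * z.im := by simp
  have e2 : (2 * (b : ℂ) * z + a).re = 2 * b * z.re + a := by simp
  rw [e1, e2] at hre him
  by_contra hzim
  have h3 : 2 * b * z.im ≠ 0 := by positivity
  have h4 : 2 * b * z.re + a = 0 := by
    have : (2 * b * z.re + a) * (2 * b * z.im) = 0 := by linarith
    rcases mul_eq_zero.1 this with h | h
    · exact h
    · exact absurd h h3
  rw [h4] at hre
  have : 0 < (2 * b * z.im) * (2 * b * z.im) := mul_self_pos.2 h3
  have h5 : 0 < b ^ 2 := by positivity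
  nlinarith [sq_nonneg a]

theorem hermite_example : Admissible He ∧ ∃ (T : ℝ[X] →ₗ[ℝ] ℝ[X]) (γ : ℕ → ℝ) (Q : ℕ → ℝ[X]),
    (∀ k, T (He k) = γ k • He k) ∧
    Represents Q T ∧
    InfiniteOrder Q ∧
    (∀ p, IsHyperbolic p → IsHyperbolic (T p)) ∧
    ¬ Monotone' Q := by
  refine ⟨He_admissible, T₀, γ₀, repQ T₀, T₀_He, repQ_rep T₀, ?_, ?_, ?_⟩
  · intro n
    refine ⟨2 * (n + 1), by omega, ?_⟩
    intro h0
    have h := congrArg (fun p : ℝ[X] => p.eval 0) (repQ_spec T₀ (2 * (n + 1)))
    rw [eval_finsetSum, sum_range_succ, h0, zero_mul, eval_zero, add_zero] at h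
    have hz : ∑ k ∈ range (2 * (n + 1)),
        eval 0 (repQ T₀ k * derivative^[k] (X ^ (2 * (n + 1)) : ℝ[X])) = 0 := by
      apply sum_eq_zero
      intro k hk
      rw [mem_range] at hk
      rw [eval_mul, iterate_derivative_X_pow_eq_smul, eval_smul, eval_pow, eval_X,
        zero_pow (by omega), smul_zero, mul_zero]
    rw [hz, T₀_apply] at h
    have d1 : derivative (X ^ (2 * (n + 1)) : ℝ[X]) =
        ((2 * (n + 1) : ℕ) : ℝ) • X ^ (2 * n + 1) := by
      rw [derivative_X_pow, smul_eq_C_mul]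
      rfl
    have d2 : derivative (X ^ (2 * n + 1) : ℝ[X]) = ((2 * n + 1 : ℕ) : ℝ) • X ^ (2 * n) := by
      rw [derivative_X_pow, smul_eq_C_mul]
      rfl
    rw [d1, derivative_smul, d2, ex.map_smul, ex.map_smul, ex.map_smul, ex_X_pow,
      ex_X_pow] at h
    simp at h
    have := mom_even_pos n
    rcases h with h | h | h
    · have : (0 : ℝ) < (n : ℝ) + 1 := by positivity
      linarith
    · have : (0 : ℝ) < 2 * (n : ℝ) + 1 := by positivity
      linarith
    · linarith
  · intro p _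
    rw [T₀_apply]
    exact hyp _ _
  · intro h
    have q0 := repQ_spec T₀ 0
    have q1 := repQ_spec T₀ 1
    have q2 := repQ_spec T₀ 2
    have t0 : T₀ (X ^ 0) = 0 := by simp [T₀_apply]
    have t1 : T₀ (X ^ 1) = X := by
      have := T₀_He 1
      rw [He_one] at this
      rw [pow_one, this]
      simp [γ₀]
    have t2 : T₀ (X ^ 2) = 2 * (X ^ 2 - 1) := by
      have := T₀_He 2
      rw [He_two, map_sub] at this
      rw [pow_zero] at t0
      rw [t0, sub_zero] at this
      rw [this]
      simp [γ₀, smul_eq_C_mul, map_ofNat C 2]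
    rw [t0] at q0
    rw [t1] at q1
    rw [t2] at q2
    simp [sum_range_succ] at q0
    simp [sum_range_succ, q0] at q1
    simp [sum_range_succ, q0, q1, one_add_one_eq_two, map_ofNat C 2] at q2
    have q2' : repQ T₀ 2 = -1 := by
      have h2 : (C (1 / 2 : ℝ) : ℝ[X]) * 2 = 1 := by
        rw [← map_ofNat C 2, ← C_mul]
        norm_num
      linear_combination C (1 / 2) * q2 - (repQ T₀ 2 + 1) * h2
    have := h 1 (by rw [q1]; exact X_ne_zero)
    rw [q1, show 1 + 1 = 2 from rfl, q2', degree_X, degree_neg, degree_one] at this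
    exact absurd this (by decide)

/-! ### The rank three example -/

/-- The basis `1, x, x ^ 2 - 1, x ^ 3, x ^ 4, ...`. -/
noncomputable def B₁ (k : ℕ) : ℝ[X] := if k = 2 then X ^ 2 - 1 else X ^ k

theorem B₁_admissible : Admissible B₁ := by
  refine ⟨?_, 3, fun j => if j = 3 then X ^ 3 else 0, fun k => -((k : ℝ) * (k - 1) * (k - 2)),
    by norm_num, by simp, ?_⟩
  · intro k
    by_cases hk : k = 2
    · subst hk
      rw [B₁, if_pos rfl, ← C_1]
      exact degree_X_pow_sub_C (by norm_num) 1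
    · rw [B₁, if_neg hk, degree_X_pow]
  · intro k
    have : Icc 1 3 = ({1, 2, 3} : Finset ℕ) := by decide
    rw [this]
    simp only [sum_insert (show (1 : ℕ) ∉ ({2, 3} : Finset ℕ) by decide),
      sum_insert (show (2 : ℕ) ∉ ({3} : Finset ℕ) by decide), sum_singleton]
    simp only [if_neg (show (1 : ℕ) ≠ 3 by norm_num), if_neg (show (2 : ℕ) ≠ 3 by norm_num),
      if_true, zero_mul, zero_add]
    match k with
    | 0 => simp [B₁]
    | 1 => simp [B₁]
    | 2 =>
      rw [B₁, if_pos rfl]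
      simp
    | k + 3 =>
      rw [B₁, if_neg (by omega), iterate_derivative_X_pow_eq_smul]
      have h1 : k + 3 - 3 = k := rfl
      have h2 : ((k + 3).descFactorial 3 : ℝ) = ((k + 3 : ℕ) : ℝ) * ((k + 3 : ℕ) - 1) *
          ((k + 3 : ℕ) - 2) := by
        simp [Nat.descFactorial]
        ring
      rw [h1, h2, smul_eq_C_mul, C_neg]
      ring

/-- The operator `1 ↦ 3`, `x ↦ 6 x`, `x ^ 2 ↦ 5 x ^ 2 - 2`, `x ^ k ↦ 0` for `k ≥ 3`. -/
noncomputable def T₁ : ℝ[X] →ₗ[ℝ] ℝ[X] :=
  (lcoeff ℝ 0).smulRight 3 + (lcoeff ℝ 1).smulRight (6 * X) +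
    (lcoeff ℝ 2).smulRight (5 * X ^ 2 - 2)

theorem T₁_apply (p : ℝ[X]) : T₁ p = C (p.coeff 0) * 3 + C (p.coeff 1) * (6 * X) +
    C (p.coeff 2) * (5 * X ^ 2 - 2) := by
  simp [T₁, smul_eq_C_mul]

/-- The eigenvalues. -/
noncomputable def γ₁ (n : ℕ) : ℝ :=
  if n = 0 then 3 else if n = 1 then 6 else if n = 2 then 5 else 0

theorem T₁_B (n : ℕ) : T₁ (B₁ n) = γ₁ n • B₁ n := by
  match n with
  | 0 => simp [T₁_apply, B₁, γ₁, smul_eq_C_mul, coeff_one, map_ofNat C 3]
  | 1 => simp [T₁_apply, B₁, γ₁, smul_eq_C_mul, coeff_X, map_ofNat C 6]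
  | 2 =>
    simp [T₁_apply, B₁, γ₁, smul_eq_C_mul, coeff_one, coeff_X_pow, map_ofNat C 5]
    ring
  | n + 3 =>
    simp [T₁_apply, B₁, γ₁, coeff_X_pow]

theorem infinite_order (T : ℝ[X] →ₗ[ℝ] ℝ[X]) (M : ℕ) (hM : ∀ n, M ≤ n → T (X ^ n) = 0)
    (h1 : (T 1).eval 1 ≠ 0) (Q : ℕ → ℝ[X]) (hQ : Represents Q T) : InfiniteOrder Q := by
  intro N
  by_contra hcon
  push Not at hcon
  set f : ℝ[X] := ∑ k ∈ range N, C ((Q k).eval 1) * descPochhammer ℝ k with hf
  have hroot : ∀ n : ℕ, N + M ≤ n → f.eval (n : ℝ) = 0 := by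
    intro n hn
    have h := hQ (X ^ n)
    rw [hM n (by omega), natDegree_X_pow] at h
    have h2 := congrArg (fun p : ℝ[X] => p.eval 1) h
    rw [eval_zero, eval_finsetSum] at h2
    rw [hf, eval_finsetSum, h2]
    apply sum_subset_zero_on_sdiff
    · intro k hk
      rw [mem_range] at hk ⊢
      omega
    · intro k hk
      rw [mem_sdiff, mem_range, mem_range, not_lt] at hk
      rw [hcon k hk.2, zero_mul, eval_zero]
    · intro k hk
      rw [eval_mul, eval_mul, eval_C, iterate_derivative_X_pow_eq_smul, eval_smul, eval_pow,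
        eval_X, one_pow, descPochhammer_eval_eq_descFactorial, smul_eq_mul, mul_one]
  have hf0 : f = 0 := by
    apply eq_zero_of_infinite_isRoot
    apply Set.Infinite.mono (s := (fun n : ℕ => (n : ℝ)) '' Set.Ici (N + M))
    · rintro _ ⟨n, hn, rfl⟩
      exact hroot n hn
    · apply Set.Infinite.image
      · exact fun a _ b _ h => by exact_mod_cast h
      · exact Set.Ici_infinite _
  have h0 := hQ 1
  rw [natDegree_one, sum_range_one, Function.iterate_zero, id_eq, mul_one] at h0
  have hN : 0 < N := by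
    rcases Nat.eq_zero_or_pos N with h | h
    · exfalso
      apply h1
      rw [h0, hcon 0 (by omega), eval_zero]
    · exact h
  have h2 : f.eval 0 = (Q 0).eval 1 := by
    rw [hf, eval_finsetSum, sum_eq_single_of_mem 0 (mem_range.2 hN)]
    · simp
    · intro k _ hk
      rw [eval_mul]
      have := descPochhammer_zero_eval_zero ℝ
      rw [descPochhammer_ne_zero_eval_zero ℝ hk, mul_zero]
  apply h1
  rw [h0, ← h2, hf0, eval_zero]

/-- Real quadratics `A x ^ 2 + B x + C` with `4 A C ≤ B ^ 2` are hyperbolic. -/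
theorem quad_hyp (a b c : ℝ) (hd : 4 * a * c ≤ b ^ 2) :
    IsHyperbolic (C a * X ^ 2 + C b * X + C c) := by
  by_cases ha : a = 0
  · by_cases hb : b = 0
    · have := hyperbolic_C c
      rw [ha, hb, C_0, zero_mul, zero_mul, zero_add, zero_add]
      exact this
    · right
      intro z hz
      have h1 : (b : ℂ) * z + c = 0 := by
        simpa [ha] using hz
      have := congrArg Complex.im h1
      simp at this
      exact this.resolve_left hb
  right
  intro z hz
  have h1 : (a : ℂ) * z ^ 2 + b * z + c = 0 := by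
    simpa using hz
  have h2 : (2 * (a : ℂ) * z + b) ^ 2 = ((b ^ 2 - 4 * a * c : ℝ) : ℂ) := by
    push_cast
    linear_combination 4 * (a : ℂ) * h1
  have hre := congrArg Complex.re h2
  have him := congrArg Complex.im h2
  rw [sq, Complex.mul_re, Complex.ofReal_re] at hre
  rw [sq, Complex.mul_im, Complex.ofReal_im] at him
  have e1 : (2 * (a : ℂ) * z + b).im = 2 * a * z.im := by simp
  have e2 : (2 * (a : ℂ) * z + b).re = 2 * a * z.re + b := by simp
  rw [e1, e2] at hre him
  by_contra hzim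
  have h3 : 2 * a * z.im ≠ 0 := by positivity
  have h4 : 2 * a * z.re + b = 0 := by
    have : (2 * a * z.re + b) * (2 * a * z.im) = 0 := by linarith
    rcases mul_eq_zero.1 this with h | h
    · exact h
    · exact absurd h h3
  rw [h4] at hre
  have : 0 < (2 * a * z.im) * (2 * a * z.im) := mul_self_pos.2 h3
  linarith

theorem T₁_hyp (p : ℝ[X]) (hp : IsHyperbolic p) : IsHyperbolic (T₁ p) := by
  have hp' : Hyperbolic p := hp
  have hn := hp'.newton
  have e : T₁ p = C (5 * p.coeff 2) * X ^ 2 + C (6 * p.coeff 1) * X +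
      C (3 * p.coeff 0 - 2 * p.coeff 2) := by
    rw [T₁_apply]
    simp only [map_mul, map_sub, map_ofNat C]
    ring
  rw [e]
  apply quad_hyp
  nlinarith [sq_nonneg (p.coeff 1), sq_nonneg (p.coeff 2)]

theorem B₁_hyp (k : ℕ) : IsHyperbolic (B₁ k) := by
  by_cases hk : k = 2
  · rw [B₁, if_pos hk]
    have := quad_hyp 1 0 (-1) (by norm_num)
    simpa [sub_eq_add_neg] using this
  · rw [B₁, if_neg hk]
    exact hyperbolic_X.pow k

theorem result : (Admissible He ∧ ∃ (T : ℝ[X] →ₗ[ℝ] ℝ[X]) (γ : ℕ → ℝ) (Q : ℕ → ℝ[X]),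
    (∀ k, T (He k) = γ k • He k) ∧
    Represents Q T ∧
    InfiniteOrder Q ∧
    (∀ p, IsHyperbolic p → IsHyperbolic (T p)) ∧
    ¬ Monotone' Q) ∧
  ∃ (B : ℕ → ℝ[X]) (T : ℝ[X] →ₗ[ℝ] ℝ[X]) (γ : ℕ → ℝ) (Q : ℕ → ℝ[X]),
    Admissible B ∧ (∀ k, IsHyperbolic (B k)) ∧
    (∀ k, T (B k) = γ k • B k) ∧
    Represents Q T ∧
    InfiniteOrder Q ∧
    (∀ p, IsHyperbolic p → IsHyperbolic (T p)) ∧
    3 ≤ Module.rank ℝ (LinearMap.range T) ∧
    ¬ Monotone' Q := by
  refine ⟨hermite_example, B₁, T₁, γ₁, repQ T₁, B₁_admissible, ?_, T₁_B, repQ_rep T₁, ?_, ?_, ?_,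
    ?_⟩
  · exact B₁_hyp
  · apply infinite_order T₁ 3 _ _ _ (repQ_rep T₁)
    · intro n hn
      rw [T₁_apply, coeff_X_pow, coeff_X_pow, coeff_X_pow, if_neg (by omega), if_neg (by omega),
        if_neg (by omega)]
      simp
    · simp [T₁_apply, coeff_one]
  · exact T₁_hyp
  · have t0 : T₁ 1 = 3 := by simp [T₁_apply, coeff_one]
    have t1 : T₁ X = 6 * X := by simp [T₁_apply, coeff_X]
    have t2 : T₁ (X ^ 2) = 5 * X ^ 2 - 2 := by simp [T₁_apply, coeff_X_pow]
    let v : Fin 3 → LinearMap.range T₁ :=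
      ![⟨3, 1, t0⟩, ⟨6 * X, X, t1⟩, ⟨5 * X ^ 2 - 2, X ^ 2, t2⟩]
    have hv : LinearIndependent ℝ v := by
      rw [Fintype.linearIndependent_iff]
      intro g hg
      have hg' := congrArg (Subtype.val) hg
      rw [Fin.sum_univ_three] at hg'
      simp only [v, Matrix.cons_val_zero, Matrix.cons_val_one, Matrix.cons_val_two,
        Submodule.coe_add, Submodule.coe_smul, Submodule.coe_zero] at hg'
      have e3 := congrArg (fun p : ℝ[X] => p.eval 0) hg'
      have e1 := congrArg (fun p : ℝ[X] => p.eval 1) hg'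
      have e2 := congrArg (fun p : ℝ[X] => p.eval 2) hg'
      simp at e1 e2 e3
      intro i
      fin_cases i
      · simp; linarith
      · simp; linarith
      · simp; linarith
    have := hv.cardinal_le_rank
    simpa using this
  · intro h
    have q0 := repQ_spec T₁ 0
    have q1 := repQ_spec T₁ 1
    have q2 := repQ_spec T₁ 2
    have q3 := repQ_spec T₁ 3
    have t0 : T₁ 1 = 3 := by simp [T₁_apply, coeff_one]
    have t1 : T₁ X = 6 * X := by simp [T₁_apply, coeff_X]
    have t2 : T₁ (X ^ 2) = 5 * X ^ 2 - 2 := by simp [T₁_apply, coeff_X_pow]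
    have t3 : T₁ (X ^ 3) = 0 := by simp [T₁_apply, coeff_X_pow]
    rw [pow_zero, t0] at q0
    rw [pow_one, t1] at q1
    rw [t2] at q2
    rw [t3] at q3
    simp at q0
    simp [sum_range_succ, q0] at q1
    have q1' : repQ T₁ 1 = 3 * X := by linear_combination q1
    simp [sum_range_succ, q0, q1', one_add_one_eq_two, map_ofNat C 2] at q2
    have h2 : (C (1 / 2 : ℝ) : ℝ[X]) * 2 = 1 := by
      rw [← map_ofNat C 2, ← C_mul]
      norm_num
    have q2' : repQ T₁ 2 = - (2 * X ^ 2) - 1 := by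
      linear_combination C (1 / 2) * q2 - (repQ T₁ 2 + 2 * X ^ 2 + 1) * h2
    simp [sum_range_succ, q0, q1', q2', one_add_one_eq_two, map_ofNat C 2] at q3
    have h6 : (C (1 / 6 : ℝ) : ℝ[X]) * 6 = 1 := by
      rw [← map_ofNat C 6, ← C_mul]
      norm_num
    have q3' : repQ T₁ 3 = X := by
      linear_combination C (1 / 6) * q3 - (repQ T₁ 3 - X) * h6
    have := h 2 (by
      intro h0
      have := congrArg (fun p : ℝ[X] => p.eval 0) (q2'.symm.trans h0)
      simp at this)
    have hdeg : (repQ T₁ 2).natDegree = 2 := by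
      have : repQ T₁ 2 = C (-2) * X ^ 2 + C 0 * X + C (-1) := by
        rw [q2', C_neg, C_neg, map_ofNat C 2]
        simp
        ring
      rw [this]
      exact natDegree_quadratic (by norm_num)
    have h23 := natDegree_le_natDegree this
    rw [show 2 + 1 = 3 from rfl, q3', hdeg, natDegree_X] at h23
    omega

end Pool.Agent.Results.MP_f79668_an.NonMonotone
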